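import Pool.Agent.Lib.Pec7.LowL

/-!
# Every large `n` is `d`-representable for many `d`

`n` is `d`-representable if `n = k + m` with `k, m ≥ 1` and `p_k + 2 d`, `p_(p_m) + 2 d` both prime. There is `c > 0` such
that for every `ε > 0`, all large `n` and all `D` with `p_(p_n) ≤ D` and `D^(1/6 + ε) ≤ n`, at least
`c D / (log log D)^4` of the `d ≤ D` have `n` `d`-representable.
-/

set_option autoImplicit false

namespace Pool.Agent.Results.MP_ec7cd0_nt.OnAverage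

/-- The `j`-th prime `p_j` (`p_1 = 2`). -/
noncomputable def prime (j : ℕ) : ℕ := Nat.nth Nat.Prime (j - 1)

/-- `n` is `d`-representable. -/
def Representable (d n : ℕ) : Prop :=
  ∃ k m : ℕ, 1 ≤ k ∧ 1 ≤ m ∧ n = k + m ∧ (prime k + 2 * d).Prime ∧ (prime (prime m) + 2 * d).Prime

/-- The theorem. -/
theorem result : ∃ c : ℝ, 0 < c ∧ ∀ ε : ℝ, 0 < ε → ∃ n₀ : ℕ, ∀ n : ℕ, n₀ ≤ n → ∀ D : ℕ,
    prime (prime n) ≤ D → (D : ℝ) ^ (1 / 6 + ε) ≤ n →
    c * (D / Real.log (Real.log D) ^ 4) ≤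
      (Set.ncard {d : ℕ | 1 ≤ d ∧ d ≤ D ∧ Representable d n} : ℝ) :=
  Pool.Agent.Pec7.lowL

end Pool.Agent.Results.MP_ec7cd0_nt.OnAverage
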