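import Pool.Agent.Lib.Pec7.Thr3

/-!
# A lower bound for the threshold `N(d)`, for almost all `d`

`n` is `d`-representable if `n = k + m` with `k, m ≥ 1` and `p_k + 2 d`, `p_(p_m) + 2 d` both prime. For all large `X` each
`n ≤ (log X)^2` is `d`-representable for at most `C (1 / log X + n logloglog X / (log X)^2) X` of the `d ≤ X`. So for all but
`δ X` of the `d ≤ X` some `n ≥ c (log X)^2 / logloglog X` is not `d`-representable, `c = c(δ) > 0`.
-/

set_option autoImplicit false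

open Filter

namespace Pool.Agent.Results.MP_ec7cd0_nt.ThresholdBelow

/-- The `j`-th prime `p_j` (`p_1 = 2`). -/
noncomputable def prime (j : ℕ) : ℕ := Nat.nth Nat.Prime (j - 1)

/-- `n` is `d`-representable. -/
def Representable (d n : ℕ) : Prop :=
  ∃ k m : ℕ, 1 ≤ k ∧ 1 ≤ m ∧ n = k + m ∧ (prime k + 2 * d).Prime ∧ (prime (prime m) + 2 * d).Prime

/-- The theorem: (1) the upper bound for the number of `d ≤ X` for which `n` is `d`-representable; (2) the number of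
`d ≤ X` for which all `n ≥ c (log X)^2 / logloglog X` are `d`-representable is at most `δ X`. -/
theorem result :
    (∃ C : ℝ, 0 < C ∧ ∃ X₀ : ℕ, ∀ X : ℕ, X₀ ≤ X → ∀ n : ℕ, 1 ≤ n → (n : ℝ) ≤ Real.log X ^ 2 →
      (Set.ncard {d : ℕ | 1 ≤ d ∧ d ≤ X ∧ Representable d n} : ℝ) ≤
        C * (X / Real.log X + n * (Real.log (Real.log (Real.log X)) * (X / Real.log X ^ 2)))) ∧
    (∀ δ : ℝ, 0 < δ → ∃ c : ℝ, 0 < c ∧ ∃ X₀ : ℕ, ∀ X : ℕ, X₀ ≤ X →
      (Set.ncard {d : ℕ | 1 ≤ d ∧ d ≤ X ∧ ∀ n : ℕ,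
        c * (Real.log X ^ 2 / Real.log (Real.log (Real.log X))) ≤ n → Representable d n} : ℝ) ≤ δ * X) := by
  refine ⟨?_, fun δ hδ => ?_⟩
  · obtain ⟨C, hC, h⟩ := Pool.Agent.Pec7.rep_upper3
    obtain ⟨X₀, hX₀⟩ := eventually_atTop.mp h
    refine ⟨C, hC, X₀, fun X hX n hn hnX => ?_⟩
    exact hX₀ X hX n hn (by nlinarith [sq_nonneg (Real.log (X : ℝ))])
  · obtain ⟨c, hc, h⟩ := Pool.Agent.Pec7.thr_most δ hδ
    obtain ⟨X₀, hX₀⟩ := eventually_atTop.mp h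
    exact ⟨c, hc, X₀, fun X hX => hX₀ X hX⟩

end Pool.Agent.Results.MP_ec7cd0_nt.ThresholdBelow
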